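import Mathlib

/-!
Hyperbolic 3-space in the projective (Beltrami-Klein) model: the open unit ball of `ℝ³`, the point
`x` standing for the point `(1, x) / √(1 - x·x)` of the hyperboloid in Lorentz space `ℝ^{1,3}`.
-/

set_option autoImplicit false

open MeasureTheory Matrix

namespace Pool.Agent.H667Z.Hyp

/-- Vectors `(t, v)` of Lorentz space `ℝ^{1,3}`. -/
abbrev Lor : Type := ℝ × (Fin 3 → ℝ)

/-- The Lorentz form `⟨(t, v), (s, w)⟩ = v·w - t s`. -/
def lor (e f : Lor) : ℝ := e.2 ⬝ᵥ f.2 - e.1 * f.1

/-- Hyperbolic 3-space: the open Euclidean unit ball. -/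
def H3 : Set (Fin 3 → ℝ) := {x | x ⬝ᵥ x < 1}

/-- Hyperbolic distance in the Klein model. -/
noncomputable def hdist (x y : Fin 3 → ℝ) : ℝ :=
  Real.arcosh ((1 - x ⬝ᵥ y) / (√(1 - x ⬝ᵥ x) * √(1 - y ⬝ᵥ y)))

/-- Hyperbolic volume in the Klein model: density `(1 - x·x)^{-2}` against Lebesgue measure. -/
noncomputable def hvol (A : Set (Fin 3 → ℝ)) : ENNReal :=
  ∫⁻ x in A, ENNReal.ofReal (1 / (1 - x ⬝ᵥ x) ^ 2)

/-- The hyperbolic plane orthogonal to the unit spacelike vector `e`. -/
def plane (e : Lor) : Set (Fin 3 → ℝ) := {x ∈ H3 | lor e (1, x) = 0}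

/-- The closed halfspace bounded by `plane e` whose outward unit normal is `e`. -/
def half (e : Lor) : Set (Fin 3 → ℝ) := {x ∈ H3 | lor e (1, x) ≤ 0}

open Classical in
/-- The measure of the dihedral angle `half e ∩ half f` for unit spacelike `e`, `f`: if the planes
meet, the angle of the wedge, which is `π` minus the angle `arccos ⟨e, f⟩` of the outward unit
normals; otherwise minus the hyperbolic distance of the two planes (which is `0` for parallel
planes). -/
noncomputable def dihedral (e f : Lor) : ℝ :=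
  if (plane e ∩ plane f).Nonempty then Real.pi - Real.arccos (lor e f)
  else -sInf {d | ∃ x ∈ plane e, ∃ y ∈ plane f, d = hdist x y}

/-- The intersection of the halfspaces `half (e i)`. -/
def poly {N : ℕ} (e : Fin N → Lor) : Set (Fin 3 → ℝ) := ⋂ i, half (e i)

/-- `e` presents a compact convex polyhedron with interior points as an intersection of halfspaces
given by unit spacelike normals, none of which can be dropped. -/
def IsPolyhedron {N : ℕ} (e : Fin N → Lor) : Prop :=
  (∀ i, lor (e i) (e i) = 1) ∧ IsCompact (poly e) ∧ (interior (poly e)).Nonempty ∧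
    ∀ i, ∃ x ∈ H3, x ∉ half (e i) ∧ ∀ j, j ≠ i → x ∈ half (e j)

end Pool.Agent.H667Z.Hyp
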