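import Pool.Agent.H667Z.Hyp.Vol

/-!
The two polyhedra.
-/

set_option autoImplicit false

open MeasureTheory Matrix Set

namespace Pool.Agent.H667Z.Hyp

/-- the unit normals -/
noncomputable def eP : Fin 6 → Lor :=
  ![((173 : ℝ) / 91, ![(195 : ℝ) / 91, (-13 : ℝ) / 91, (-4 : ℝ) / 91]),
    ((6 : ℝ) / 57, ![(-10 : ℝ) / 57, (-28 : ℝ) / 57, (-49 : ℝ) / 57]),
    ((32 : ℝ) / 127, ![(36 : ℝ) / 127, (-116 : ℝ) / 127, (49 : ℝ) / 127]),
    ((-1 : ℝ) / 73, ![(1 : ℝ) / 73, (48 : ℝ) / 73, (-55 : ℝ) / 73]),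
    ((8 : ℝ) / 113, ![(-2 : ℝ) / 113, (27 : ℝ) / 113, (110 : ℝ) / 113]),
    ((97 : ℝ) / 53, ![(-109 : ℝ) / 53, (-16 : ℝ) / 53, (9 : ℝ) / 53])]

/-- the six linear inequalities -/
def CP (x y z : ℝ) : Prop :=
  195 * x + -13 * y + -4 * z ≤ 173 ∧
    -10 * x + -28 * y + -49 * z ≤ 6 ∧
    36 * x + -116 * y + 49 * z ≤ 32 ∧
    1 * x + 48 * y + -55 * z ≤ -1 ∧
    -2 * x + 27 * y + 110 * z ≤ 8 ∧
    -109 * x + -16 * y + 9 * z ≤ 97

/-- the six strict linear inequalities -/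
def OP (x y z : ℝ) : Prop :=
  195 * x + -13 * y + -4 * z < 173 ∧
    -10 * x + -28 * y + -49 * z < 6 ∧
    36 * x + -116 * y + 49 * z < 32 ∧
    1 * x + 48 * y + -55 * z < -1 ∧
    -2 * x + 27 * y + 110 * z < 8 ∧
    -109 * x + -16 * y + 9 * z < 97

lemma half_iffP (v : Fin 3 → ℝ) :
    (∀ i, lor (eP i) (1, v) ≤ 0) ↔ CP (v 0) (v 1) (v 2) := by
  simp only [Fin.forall_fin_succ, eP, lor, dot3, CP, IsEmpty.forall_iff, and_true,
    cons_val_zero, cons_val_succ, cons_val_one, cons_val_two, tail_cons, head_cons]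
  constructor
  · rintro ⟨a, b, c, d, e, f⟩
    refine ⟨?_, ?_, ?_, ?_, ?_, ?_⟩ <;> linarith
  · rintro ⟨a, b, c, d, e, f⟩
    refine ⟨?_, ?_, ?_, ?_, ?_, ?_⟩ <;> linarith

lemma boxP {x y z : ℝ} (h : CP x y z) :
    (-9 / 10 ≤ x ∧ x ≤ 9 / 10) ∧ (-34 / 100 ≤ y ∧ y ≤ 6 / 100) ∧ (-15 / 100 ≤ z ∧ z ≤ 15 / 100) := by
  obtain ⟨a, b, c, d, e, f⟩ := h
  refine ⟨⟨?_, ?_⟩, ⟨?_, ?_⟩, ?_, ?_⟩ <;> linarith

lemma ballP (v : Fin 3 → ℝ) (h : CP (v 0) (v 1) (v 2)) : v ∈ H3 := by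
  obtain ⟨⟨a, b⟩, ⟨c, d⟩, e, f⟩ := boxP h
  change v ⬝ᵥ v < 1
  rw [dot3]
  nlinarith

lemma polyP : poly eP = {v | CP (v 0) (v 1) (v 2)} := by
  ext v
  simp only [poly, mem_iInter, half, mem_ofPred_eq, forall_and]
  rw [half_iffP]
  exact ⟨fun h => h.2, fun h => ⟨fun _ => ballP v h, h⟩⟩

lemma closedP : IsClosed (poly eP) := by
  rw [polyP]
  simp only [CP, ofPred_and]
  refine IsClosed.inter ?_ (IsClosed.inter ?_ (IsClosed.inter ?_ (IsClosed.inter ?_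
    (IsClosed.inter ?_ ?_)))) <;> exact isClosed_le (by fun_prop) (by fun_prop)

lemma isPolyP : IsPolyhedron eP := by
  refine ⟨fun i => ?_, ?_, ?_, fun i => ?_⟩
  · fin_cases i <;> simp [eP, lor, dot3] <;> norm_num
  · refine (isCompact_Icc (a := fun _ => (-1 : ℝ)) (b := fun _ => 1)).of_isClosed_subset
      closedP fun v hv => ?_
    rw [polyP] at hv
    have h := ballP v hv
    change v ⬝ᵥ v < 1 at h
    rw [dot3] at h
    have key : ∀ i, v i * v i < 1 := fun i => by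
      fin_cases i <;> simp <;> nlinarith [mul_self_nonneg (v 0), mul_self_nonneg (v 1),
        mul_self_nonneg (v 2)]
    exact ⟨fun i => by nlinarith [key i], fun i => by nlinarith [key i]⟩
  · refine ⟨![1/100, -1/25, 1/20], mem_interior.mpr ⟨{v | OP (v 0) (v 1) (v 2)}, ?_, ?_, ?_⟩⟩
    · rw [polyP]
      rintro v ⟨a, b, c, d, e, f⟩
      exact ⟨a.le, b.le, c.le, d.le, e.le, f.le⟩
    · simp only [OP, ofPred_and]
      refine IsOpen.inter ?_ (IsOpen.inter ?_ (IsOpen.inter ?_ (IsOpen.inter ?_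
        (IsOpen.inter ?_ ?_)))) <;> exact isOpen_lt (by fun_prop) (by fun_prop)
    · simp [OP]
      norm_num
  · refine ⟨(![![9/10, 1/25, 7/100], ![-2/5, -1/10, 0], ![1/2, -1/5, 1/10], ![1/10, 0, 0], ![-1/10, 0, 1/10], ![-9/10, 1/25, 1/25]] : Fin 6 → Fin 3 → ℝ) i, ?_, ?_, fun j hj => ?_⟩
    · fin_cases i <;> simp [H3, dot3] <;> norm_num
    · fin_cases i <;> simp [half, H3, eP, lor, dot3] <;> norm_num
    · fin_cases i <;> fin_cases j <;>
        first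
        | exact absurd rfl hj
        | (simp [half, H3, eP, lor, dot3] <;> norm_num)

/-- the unit normals -/
noncomputable def eQ : Fin 6 → Lor :=
  ![((3 : ℝ) / 119, ![(-15 : ℝ) / 119, (-16 : ℝ) / 119, (-117 : ℝ) / 119]),
    ((33 : ℝ) / 81, ![(-25 : ℝ) / 81, (80 : ℝ) / 81, (25 : ℝ) / 81]),
    ((61 : ℝ) / 119, ![(88 : ℝ) / 119, (83 : ℝ) / 119, (-57 : ℝ) / 119]),
    ((37 : ℝ) / 106, ![(8 : ℝ) / 106, (110 : ℝ) / 106, (-21 : ℝ) / 106]),
    ((65 : ℝ) / 122, ![(128 : ℝ) / 122, (-49 : ℝ) / 122, (18 : ℝ) / 122]),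
    ((5 : ℝ) / 43, ![(-4 : ℝ) / 43, (-3 : ℝ) / 43, (43 : ℝ) / 43])]

/-- the six linear inequalities -/
def CQ (x y z : ℝ) : Prop :=
  -15 * x + -16 * y + -117 * z ≤ 3 ∧
    -25 * x + 80 * y + 25 * z ≤ 33 ∧
    88 * x + 83 * y + -57 * z ≤ 61 ∧
    8 * x + 110 * y + -21 * z ≤ 37 ∧
    128 * x + -49 * y + 18 * z ≤ 65 ∧
    -4 * x + -3 * y + 43 * z ≤ 5

/-- the six strict linear inequalities -/
def OQ (x y z : ℝ) : Prop :=
  -15 * x + -16 * y + -117 * z < 3 ∧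
    -25 * x + 80 * y + 25 * z < 33 ∧
    88 * x + 83 * y + -57 * z < 61 ∧
    8 * x + 110 * y + -21 * z < 37 ∧
    128 * x + -49 * y + 18 * z < 65 ∧
    -4 * x + -3 * y + 43 * z < 5

lemma half_iffQ (v : Fin 3 → ℝ) :
    (∀ i, lor (eQ i) (1, v) ≤ 0) ↔ CQ (v 0) (v 1) (v 2) := by
  simp only [Fin.forall_fin_succ, eQ, lor, dot3, CQ, IsEmpty.forall_iff, and_true,
    cons_val_zero, cons_val_succ, cons_val_one, cons_val_two, tail_cons, head_cons]
  constructor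
  · rintro ⟨a, b, c, d, e, f⟩
    refine ⟨?_, ?_, ?_, ?_, ?_, ?_⟩ <;> linarith
  · rintro ⟨a, b, c, d, e, f⟩
    refine ⟨?_, ?_, ?_, ?_, ?_, ?_⟩ <;> linarith

lemma boxQ {x y z : ℝ} (h : CQ x y z) :
    (-8 / 10 ≤ x ∧ x ≤ 6 / 10) ∧ (-87 / 100 ≤ y ∧ y ≤ 37 / 100) ∧ (-19 / 100 ≤ z ∧ z ≤ 19 / 100) ∧
      (x ≤ -4 / 10 → -37 / 100 ≤ y) ∧ (3 / 10 ≤ x → -6 / 10 ≤ y) := by
  obtain ⟨a, b, c, d, e, f⟩ := h
  refine ⟨⟨?_, ?_⟩, ⟨?_, ?_⟩, ⟨?_, ?_⟩, fun _ => ?_, fun _ => ?_⟩ <;> linarith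

lemma ballQ (v : Fin 3 → ℝ) (h : CQ (v 0) (v 1) (v 2)) : v ∈ H3 := by
  obtain ⟨⟨a, b⟩, ⟨c, d⟩, ⟨e, f⟩, g, k⟩ := boxQ h
  change v ⬝ᵥ v < 1
  rw [dot3]
  have hz : v 2 * v 2 ≤ 361 / 10000 := by nlinarith
  rcases le_total (v 0) (-4 / 10) with h1 | h1
  · have := g h1
    nlinarith
  · rcases le_total (3 / 10) (v 0) with h2 | h2
    · have := k h2
      nlinarith
    · nlinarith

lemma polyQ : poly eQ = {v | CQ (v 0) (v 1) (v 2)} := by
  ext v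
  simp only [poly, mem_iInter, half, mem_ofPred_eq, forall_and]
  rw [half_iffQ]
  exact ⟨fun h => h.2, fun h => ⟨fun _ => ballQ v h, h⟩⟩

lemma closedQ : IsClosed (poly eQ) := by
  rw [polyQ]
  simp only [CQ, ofPred_and]
  refine IsClosed.inter ?_ (IsClosed.inter ?_ (IsClosed.inter ?_ (IsClosed.inter ?_
    (IsClosed.inter ?_ ?_)))) <;> exact isClosed_le (by fun_prop) (by fun_prop)

lemma isPolyQ : IsPolyhedron eQ := by
  refine ⟨fun i => ?_, ?_, ?_, fun i => ?_⟩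
  · fin_cases i <;> simp [eQ, lor, dot3] <;> norm_num
  · refine (isCompact_Icc (a := fun _ => (-1 : ℝ)) (b := fun _ => 1)).of_isClosed_subset
      closedQ fun v hv => ?_
    rw [polyQ] at hv
    have h := ballQ v hv
    change v ⬝ᵥ v < 1 at h
    rw [dot3] at h
    have key : ∀ i, v i * v i < 1 := fun i => by
      fin_cases i <;> simp <;> nlinarith [mul_self_nonneg (v 0), mul_self_nonneg (v 1),
        mul_self_nonneg (v 2)]
    exact ⟨fun i => by nlinarith [key i], fun i => by nlinarith [key i]⟩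
  · refine ⟨![7/50, 3/25, 1/20], mem_interior.mpr ⟨{v | OQ (v 0) (v 1) (v 2)}, ?_, ?_, ?_⟩⟩
    · rw [polyQ]
      rintro v ⟨a, b, c, d, e, f⟩
      exact ⟨a.le, b.le, c.le, d.le, e.le, f.le⟩
    · simp only [OQ, ofPred_and]
      refine IsOpen.inter ?_ (IsOpen.inter ?_ (IsOpen.inter ?_ (IsOpen.inter ?_
        (IsOpen.inter ?_ ?_)))) <;> exact isOpen_lt (by fun_prop) (by fun_prop)
    · simp [OQ]
      norm_num
  · refine ⟨(![![0, 0, -1/10], ![-2/5, 3/10, 1/10], ![1/2, 3/10, 0], ![1/10, 2/5, 0], ![1/2, -1/5, 1/10], ![1/10, 0, 1/5]] : Fin 6 → Fin 3 → ℝ) i, ?_, ?_, fun j hj => ?_⟩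
    · fin_cases i <;> simp [H3, dot3] <;> norm_num
    · fin_cases i <;> simp [half, H3, eQ, lor, dot3] <;> norm_num
    · fin_cases i <;> fin_cases j <;>
        first
        | exact absurd rfl hj
        | (simp [half, H3, eQ, lor, dot3] <;> norm_num)

lemma angles (i j : Fin 6) (hij : i < j) : dihedral (eP i) (eP j) ≤ dihedral (eQ i) (eQ j) := by
  refine dihedral_mono (isPolyQ.1 i) (isPolyQ.1 j) ?_ ?_ ?_ <;>
  fin_cases i <;> fin_cases j <;>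
    first
    | exact absurd hij (by decide)
    | (simp [eP, eQ, lor, dot3] <;> norm_num)

/-- outer upper bound -/
def zhP (xl xh yl yh : ℤ) : ℤ := min (up 32 36 (-116) 49 xl xh yl yh) (min (up 8 (-2) 27 110 xl xh yl yh) (up 97 (-109) (-16) 9 xl xh yl yh))
/-- outer lower bound -/
def zlP (xl xh yl yh : ℤ) : ℤ := -min (up 173 195 (-13) 4 xl xh yl yh) (min (up 6 (-10) (-28) 49 xl xh yl yh) (up (-1) 1 48 55 xl xh yl yh))
/-- inner upper bound -/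
def zhQ (xl xh yl yh : ℤ) : ℤ := min (inn 33 (-25) 80 25 xl xh yl yh) (min (inn 65 128 (-49) 18 xl xh yl yh) (inn 5 (-4) (-3) 43 xl xh yl yh))
/-- inner lower bound -/
def zlQ (xl xh yl yh : ℤ) : ℤ := -min (inn 3 (-15) (-16) 117 xl xh yl yh) (min (inn 61 88 83 57 xl xh yl yh) (inn 37 8 110 21 xl xh yl yh))

/-- weight of a column of the outer grid -/
def wP (i j : ℕ) : ℤ :=
  wt (-900 + 30 * i) (-870 + 30 * i) (-340 + 20 * j) (-320 + 20 * j)
    (zlP (-900 + 30 * i) (-870 + 30 * i) (-340 + 20 * j) (-320 + 20 * j))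
    (zhP (-900 + 30 * i) (-870 + 30 * i) (-340 + 20 * j) (-320 + 20 * j))

/-- height of a column of the inner grid -/
def wQ (i j : ℕ) : ℤ :=
  max (zhQ (-800 + 50 * i) (-750 + 50 * i) (-900 + 50 * j) (-850 + 50 * j) -
    zlQ (-800 + 50 * i) (-750 + 50 * i) (-900 + 50 * j) (-850 + 50 * j)) 0

lemma checkP1 : ∀ i < 60, ∀ j < 20,
    zlP (-900 + 30 * (i : ℕ)) (-870 + 30 * i) (-340 + 20 * (j : ℕ)) (-320 + 20 * j) ≤
      zhP (-900 + 30 * i) (-870 + 30 * i) (-340 + 20 * j) (-320 + 20 * j) →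
    sq3 (-900 + 30 * i) (-870 + 30 * i) (-340 + 20 * j) (-320 + 20 * j)
      (zlP (-900 + 30 * i) (-870 + 30 * i) (-340 + 20 * j) (-320 + 20 * j))
      (zhP (-900 + 30 * i) (-870 + 30 * i) (-340 + 20 * j) (-320 + 20 * j)) < 10 ^ 6 := by
  decide +kernel

lemma checkP2 : ∑ i ∈ Finset.range 60, ∑ j ∈ Finset.range 20, wP i j ≤ 115000000 := by
  decide +kernel

lemma checkQ : 30000 ≤ ∑ i ∈ Finset.range 28, ∑ j ∈ Finset.range 27, wQ i j := by
  decide +kernel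

lemma wP_nonneg (i j : ℕ) : 0 ≤ wP i j := by
  unfold wP wt
  split_ifs with h
  · exact mul_nonneg (by linarith) (add_nonneg (Int.ediv_nonneg (by norm_num) (sq_nonneg _))
      zero_le_one)
  · exact le_rfl

lemma volP : hvol (poly eP) ≤ ENNReal.ofReal (69 / 1000) := by
  let B : Fin 60 × Fin 20 → Set (Fin 3 → ℝ) := fun p =>
    box (-900 + 30 * (p.1 : ℕ)) (-870 + 30 * (p.1 : ℕ)) (-340 + 20 * (p.2 : ℕ))
      (-320 + 20 * (p.2 : ℕ))
      (zlP (-900 + 30 * (p.1 : ℕ)) (-870 + 30 * (p.1 : ℕ)) (-340 + 20 * (p.2 : ℕ))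
        (-320 + 20 * (p.2 : ℕ)))
      (zhP (-900 + 30 * (p.1 : ℕ)) (-870 + 30 * (p.1 : ℕ)) (-340 + 20 * (p.2 : ℕ))
        (-320 + 20 * (p.2 : ℕ)))
  have hcov : poly eP ⊆ ⋃ p, B p := by
    intro v hv
    rw [polyP] at hv
    obtain ⟨⟨a, b⟩, ⟨c, d⟩, -⟩ := boxP hv
    obtain ⟨i, hi1, hi2⟩ := grid ((1000 * v 0 + 900) / 30) 60 (by norm_num) (by linarith)
      (by push_cast; linarith)
    obtain ⟨j, hj1, hj2⟩ := grid ((1000 * v 1 + 340) / 20) 20 (by norm_num) (by linarith)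
      (by push_cast; linarith)
    refine mem_iUnion.mpr ⟨(i, j), mem_box.mpr ?_⟩
    have x1 : ((-900 + 30 * ((i : ℕ) : ℤ) : ℤ) : ℝ) ≤ 1000 * v 0 := by push_cast; linarith
    have x2 : 1000 * v 0 ≤ ((-870 + 30 * ((i : ℕ) : ℤ) : ℤ) : ℝ) := by push_cast; linarith
    have y1 : ((-340 + 20 * ((j : ℕ) : ℤ) : ℤ) : ℝ) ≤ 1000 * v 1 := by push_cast; linarith
    have y2 : 1000 * v 1 ≤ ((-320 + 20 * ((j : ℕ) : ℤ) : ℤ) : ℝ) := by push_cast; linarith
    obtain ⟨h0, h1, h2, h3, h4, h5⟩ := hv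
    refine ⟨⟨x1, x2⟩, ⟨y1, y2⟩, ?_, ?_⟩
    · have u0 := up_sound 173 195 (-13) 4 _ _ _ _ (by norm_num) _ _ (-v 2) x1 x2 y1 y2
        (by push_cast; linarith)
      have u1 := up_sound 6 (-10) (-28) 49 _ _ _ _ (by norm_num) _ _ (-v 2) x1 x2 y1 y2
        (by push_cast; linarith)
      have u3 := up_sound (-1) 1 48 55 _ _ _ _ (by norm_num) _ _ (-v 2) x1 x2 y1 y2
        (by push_cast; linarith)
      have := le_min u0 (le_min u1 u3)
      rw [zlP, Int.cast_neg, Int.cast_min, Int.cast_min]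
      linarith
    · have u2 := up_sound 32 36 (-116) 49 _ _ _ _ (by norm_num) _ _ (v 2) x1 x2 y1 y2
        (by push_cast; linarith)
      have u4 := up_sound 8 (-2) 27 110 _ _ _ _ (by norm_num) _ _ (v 2) x1 x2 y1 y2
        (by push_cast; linarith)
      have u5 := up_sound 97 (-109) (-16) 9 _ _ _ _ (by norm_num) _ _ (v 2) x1 x2 y1 y2
        (by push_cast; linarith)
      rw [zhP, Int.cast_min, Int.cast_min]
      exact le_min u2 (le_min u4 u5)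
  have hB : ∀ p, hvol (B p) ≤ ENNReal.ofReal (600 * (wP p.1 p.2 : ℝ) / 10 ^ 12) := by
    intro p
    refine (hvol_box _ _ _ _ _ _ (by linarith) (by linarith)
      (checkP1 _ p.1.2 _ p.2.2)).trans (le_of_eq ?_)
    congr 1
    rw [← wP]
    push_cast
    ring
  calc hvol (poly eP) ≤ hvol (⋃ p, B p) := lintegral_mono_set hcov
    _ ≤ ∑' p, hvol (B p) := lintegral_iUnion_le _ _
    _ = ∑ p, hvol (B p) := tsum_fintype _
    _ ≤ ∑ p : Fin 60 × Fin 20, ENNReal.ofReal (600 * (wP p.1 p.2 : ℝ) / 10 ^ 12) :=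
      Finset.sum_le_sum fun p _ => hB p
    _ = ENNReal.ofReal (∑ p : Fin 60 × Fin 20, 600 * (wP p.1 p.2 : ℝ) / 10 ^ 12) := by
      rw [ENNReal.ofReal_sum_of_nonneg]
      intro p _
      have : (0 : ℝ) ≤ wP p.1 p.2 := by exact_mod_cast wP_nonneg _ _
      positivity
    _ ≤ ENNReal.ofReal (69 / 1000) := by
      apply ENNReal.ofReal_le_ofReal
      rw [← Finset.sum_div, ← Finset.mul_sum, Fintype.sum_prod_type]
      have h1 : ∑ i : Fin 60, ∑ j : Fin 20, (wP i j : ℝ) =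
          ((∑ i ∈ Finset.range 60, ∑ j ∈ Finset.range 20, wP i j : ℤ) : ℝ) := by
        push_cast
        rw [← Fin.sum_univ_eq_sum_range (fun i => ∑ j ∈ Finset.range 20, (wP i j : ℝ)) 60]
        exact Finset.sum_congr rfl fun i _ =>
          Fin.sum_univ_eq_sum_range (fun j => (wP i j : ℝ)) 20
      have h2 : ((∑ i ∈ Finset.range 60, ∑ j ∈ Finset.range 20, wP i j : ℤ) : ℝ) ≤ 115000000 := by
        exact_mod_cast checkP2
      simp only
      rw [h1]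
      linarith

lemma volQ : ENNReal.ofReal (75 / 1000) ≤ hvol (poly eQ) := by
  let B : ℕ × ℕ → Set (Fin 3 → ℝ) := fun p =>
    obox (-800 + 50 * p.1) (-750 + 50 * p.1) (-900 + 50 * p.2) (-850 + 50 * p.2)
      (zlQ (-800 + 50 * p.1) (-750 + 50 * p.1) (-900 + 50 * p.2) (-850 + 50 * p.2))
      (zhQ (-800 + 50 * p.1) (-750 + 50 * p.1) (-900 + 50 * p.2) (-850 + 50 * p.2))
  let T : Finset (ℕ × ℕ) := Finset.range 28 ×ˢ Finset.range 27
  have hsub : ⋃ p ∈ T, B p ⊆ poly eQ := by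
    intro v hv
    obtain ⟨p, -, hv⟩ := mem_iUnion₂.mp hv
    obtain ⟨⟨x1, x2⟩, ⟨y1, y2⟩, z1, z2⟩ := mem_obox hv
    rw [zlQ, Int.cast_neg, Int.cast_min, Int.cast_min, neg_le, le_min_iff, le_min_iff] at z1
    rw [zhQ, Int.cast_min, Int.cast_min, lt_min_iff, lt_min_iff] at z2
    have u0 := inn_sound 3 (-15) (-16) 117 _ _ _ _ (by norm_num) _ _ (-v 2) x1 x2.le y1 y2.le
      (by linarith [z1.1])
    have u2 := inn_sound 61 88 83 57 _ _ _ _ (by norm_num) _ _ (-v 2) x1 x2.le y1 y2.le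
      (by linarith [z1.2.1])
    have u3 := inn_sound 37 8 110 21 _ _ _ _ (by norm_num) _ _ (-v 2) x1 x2.le y1 y2.le
      (by linarith [z1.2.2])
    have u1 := inn_sound 33 (-25) 80 25 _ _ _ _ (by norm_num) _ _ (v 2) x1 x2.le y1 y2.le
      z2.1.le
    have u4 := inn_sound 65 128 (-49) 18 _ _ _ _ (by norm_num) _ _ (v 2) x1 x2.le y1 y2.le
      z2.2.1.le
    have u5 := inn_sound 5 (-4) (-3) 43 _ _ _ _ (by norm_num) _ _ (v 2) x1 x2.le y1 y2.le
      z2.2.2.le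
    rw [polyQ]
    push_cast at u0 u1 u2 u3 u4 u5
    refine ⟨?_, ?_, ?_, ?_, ?_, ?_⟩ <;> linarith
  have hdisj : (↑T : Set (ℕ × ℕ)).PairwiseDisjoint B := by
    intro p _ q _ hpq
    refine Set.disjoint_left.mpr fun v hp hq => hpq ?_
    obtain ⟨⟨x1, x2⟩, ⟨y1, y2⟩, -⟩ := mem_obox hp
    obtain ⟨⟨x3, x4⟩, ⟨y3, y4⟩, -⟩ := mem_obox hq
    have a1 : (-800 + 50 * (p.1 : ℤ)) < -750 + 50 * q.1 := by exact_mod_cast x1.trans_lt x4
    have a2 : (-800 + 50 * (q.1 : ℤ)) < -750 + 50 * p.1 := by exact_mod_cast x3.trans_lt x2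
    have a3 : (-900 + 50 * (p.2 : ℤ)) < -850 + 50 * q.2 := by exact_mod_cast y1.trans_lt y4
    have a4 : (-900 + 50 * (q.2 : ℤ)) < -850 + 50 * p.2 := by exact_mod_cast y3.trans_lt y2
    exact Prod.ext (by omega) (by omega)
  have hB : ∀ p, ENNReal.ofReal (2500 * (wQ p.1 p.2 : ℝ) / 10 ^ 9) ≤ volume (B p) := by
    intro p
    refine le_trans (le_of_eq ?_) (volume_obox _ _ _ _ _ _ (by linarith) (by linarith))
    congr 1
    rw [← wQ]
    push_cast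
    ring
  calc ENNReal.ofReal (75 / 1000)
      ≤ ENNReal.ofReal (∑ p ∈ T, 2500 * (wQ p.1 p.2 : ℝ) / 10 ^ 9) := by
        apply ENNReal.ofReal_le_ofReal
        rw [← Finset.sum_div, ← Finset.mul_sum, Finset.sum_product]
        have h2 : (30000 : ℝ) ≤
            ((∑ i ∈ Finset.range 28, ∑ j ∈ Finset.range 27, wQ i j : ℤ) : ℝ) := by
          exact_mod_cast checkQ
        push_cast at h2
        simp only
        linarith
    _ = ∑ p ∈ T, ENNReal.ofReal (2500 * (wQ p.1 p.2 : ℝ) / 10 ^ 9) := by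
      rw [ENNReal.ofReal_sum_of_nonneg]
      intro p _
      have : (0 : ℝ) ≤ wQ p.1 p.2 := by exact_mod_cast le_max_right _ _
      positivity
    _ ≤ ∑ p ∈ T, volume (B p) := Finset.sum_le_sum fun p _ => hB p
    _ = volume (⋃ p ∈ T, B p) := (measure_biUnion_finset hdisj fun p _ =>
        MeasurableSet.univ_pi fun _ => measurableSet_Ico).symm
    _ ≤ volume (poly eQ) := measure_mono hsub
    _ ≤ hvol (poly eQ) := volume_le_hvol closedQ.measurableSet fun v hv => by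
        rw [polyQ] at hv; exact ballQ v hv

theorem counterexample : ∃ (N : ℕ) (p q : Fin N → Lor), IsPolyhedron p ∧ IsPolyhedron q ∧
    (∀ i j, i < j → dihedral (p i) (p j) ≤ dihedral (q i) (q j)) ∧
    hvol (poly p) < hvol (poly q) :=
  ⟨6, eP, eQ, isPolyP, isPolyQ, angles, volP.trans_lt (lt_of_lt_of_le
    ((ENNReal.ofReal_lt_ofReal_iff (by norm_num)).mpr (by norm_num)) volQ)⟩

end Pool.Agent.H667Z.Hyp
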