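import Pool.Agent.H667Z.Hyp.Defs

/-!
General lemmas: dihedral measure from the Lorentz product; volume bounds by grids of boxes.
-/

set_option autoImplicit false

open MeasureTheory Matrix Set

namespace Pool.Agent.H667Z.Hyp

lemma dot3 (x y : Fin 3 → ℝ) : x ⬝ᵥ y = x 0 * y 0 + x 1 * y 1 + x 2 * y 2 := by
  simp [dotProduct, Fin.sum_univ_three]

lemma hdist_nonneg {x y : Fin 3 → ℝ} (hx : x ∈ H3) (hy : y ∈ H3) : 0 ≤ hdist x y := by
  have hx' : 0 < 1 - x ⬝ᵥ x := sub_pos.mpr hx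
  have hy' : 0 < 1 - y ⬝ᵥ y := sub_pos.mpr hy
  apply Real.arcosh_nonneg
  have ha := Real.sqrt_pos.mpr hx'
  have hb := Real.sqrt_pos.mpr hy'
  rw [le_div_iff₀ (mul_pos ha hb)]
  have h1 := Real.sq_sqrt hx'.le
  have h2 := Real.sq_sqrt hy'.le
  set a := √(1 - x ⬝ᵥ x)
  set b := √(1 - y ⬝ᵥ y)
  rw [dot3] at h1 h2 ⊢
  nlinarith [sq_nonneg (a - b), sq_nonneg (x 0 - y 0), sq_nonneg (x 1 - y 1),
    sq_nonneg (x 2 - y 2)]

lemma dihedral_le (e f : Lor) : dihedral e f ≤ Real.pi - Real.arccos (lor e f) := by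
  unfold dihedral
  split_ifs with h
  · exact le_rfl
  · have h1 : 0 ≤ sInf {d | ∃ x ∈ plane e, ∃ y ∈ plane f, d = hdist x y} := by
      apply Real.sInf_nonneg
      rintro _ ⟨x, hx, y, hy, rfl⟩
      exact hdist_nonneg hx.1 hy.1
    linarith [Real.arccos_le_pi (lor e f)]

lemma planes_meet {e f : Lor} (he : lor e e = 1) (hf : lor f f = 1) (h1 : -1 < lor e f)
    (h2 : lor e f < 1) : (plane e ∩ plane f).Nonempty := by
  obtain ⟨h, n⟩ := e
  obtain ⟨k, m⟩ := f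
  set G := lor (h, n) (k, m) with hG
  have hnn : n ⬝ᵥ n = 1 + h ^ 2 := by simp only [lor] at he; linarith
  have hmm : m ⬝ᵥ m = 1 + k ^ 2 := by simp only [lor] at hf; linarith
  have hnm : n ⬝ᵥ m = G + h * k := by simp only [lor] at hG; linarith
  have hmn : m ⬝ᵥ n = G + h * k := by rw [dotProduct_comm, hnm]
  have hG2 : G ^ 2 < 1 := by nlinarith
  have hN : 0 ≤ h ^ 2 + k ^ 2 - 2 * G * h * k := by
    nlinarith [sq_nonneg (h - G * k), mul_nonneg (sub_pos.mpr hG2).le (sq_nonneg k)]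
  set D := 1 + h ^ 2 + k ^ 2 - G ^ 2 - 2 * G * h * k with hD
  have hD0 : 0 < D := by linarith
  set α := (h * (1 + k ^ 2) - k * (G + h * k)) / D with hα
  set β := (k * (1 + h ^ 2) - h * (G + h * k)) / D with hβ
  have hx1 : n ⬝ᵥ (α • n + β • m) = h := by
    rw [dotProduct_add, dotProduct_smul, dotProduct_smul, hnn, hnm, smul_eq_mul, smul_eq_mul,
      hα, hβ]
    field_simp
    rw [hD]; ring
  have hx2 : m ⬝ᵥ (α • n + β • m) = k := by
    rw [dotProduct_add, dotProduct_smul, dotProduct_smul, hmm, hmn, smul_eq_mul, smul_eq_mul,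
      hα, hβ]
    field_simp
    rw [hD]; ring
  have hx : (α • n + β • m) ∈ H3 := by
    change (α • n + β • m) ⬝ᵥ (α • n + β • m) < 1
    rw [add_dotProduct, smul_dotProduct, smul_dotProduct, hx1, hx2, smul_eq_mul, smul_eq_mul,
      hα, hβ, div_mul_eq_mul_div, div_mul_eq_mul_div, ← add_div, div_lt_one hD0, hD]
    nlinarith
  refine ⟨α • n + β • m, ⟨hx, ?_⟩, ⟨hx, ?_⟩⟩
  · simp only [lor]; rw [hx1]; ring
  · simp only [lor]; rw [hx2]; ring

lemma dihedral_mono {e f e' f' : Lor} (he : lor e' e' = 1) (hf : lor f' f' = 1)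
    (h1 : -1 < lor e' f') (h2 : lor e' f' < 1) (h : lor e f ≤ lor e' f') :
    dihedral e f ≤ dihedral e' f' := by
  refine (dihedral_le e f).trans ?_
  rw [dihedral, if_pos (planes_meet he hf h1 h2)]
  linarith [Real.arccos_le_arccos h]

lemma grid (t : ℝ) (n : ℕ) (hn : 0 < n) (h0 : 0 ≤ t) (h1 : t ≤ n) :
    ∃ i : Fin n, ((i : ℕ) : ℝ) ≤ t ∧ t ≤ (i : ℕ) + 1 := by
  by_cases h : ⌊t⌋₊ < n
  · exact ⟨⟨⌊t⌋₊, h⟩, Nat.floor_le h0, (Nat.lt_floor_add_one t).le⟩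
  · refine ⟨⟨n - 1, by omega⟩, ?_, ?_⟩
    · have : ((n - 1 : ℕ) : ℝ) ≤ (⌊t⌋₊ : ℝ) := by exact_mod_cast (by omega)
      exact this.trans (Nat.floor_le h0)
    · have : ((n - 1 : ℕ) : ℝ) + 1 = n := by
        rw [Nat.cast_sub (by omega)]; simp
      simpa only [this] using h1

/-- outer bound for `1000 z` on a rectangle -/
def up (h a b c xl xh yl yh : ℤ) : ℤ :=
  (1000 * h - min (a * xl) (a * xh) - min (b * yl) (b * yh)) / c + 1

/-- inner bound for `1000 z` on a rectangle -/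
def inn (h a b c xl xh yl yh : ℤ) : ℤ :=
  (1000 * h - max (a * xl) (a * xh) - max (b * yl) (b * yh)) / c

lemma min_le_mul (a l u : ℤ) (t : ℝ) (h1 : (l : ℝ) ≤ t) (h2 : t ≤ u) :
    ((min (a * l) (a * u) : ℤ) : ℝ) ≤ a * t := by
  push_cast
  rcases le_total 0 (a : ℝ) with h | h
  · exact min_le_of_left_le (mul_le_mul_of_nonneg_left h1 h)
  · exact min_le_of_right_le (mul_le_mul_of_nonpos_left h2 h)

lemma mul_le_max (a l u : ℤ) (t : ℝ) (h1 : (l : ℝ) ≤ t) (h2 : t ≤ u) :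
    a * t ≤ ((max (a * l) (a * u) : ℤ) : ℝ) := by
  push_cast
  rcases le_total 0 (a : ℝ) with h | h
  · exact le_max_of_le_right (mul_le_mul_of_nonneg_left h2 h)
  · exact le_max_of_le_left (mul_le_mul_of_nonpos_left h1 h)

lemma up_sound (h a b c xl xh yl yh : ℤ) (hc : 0 < c) (x y z : ℝ) (h1 : (xl : ℝ) ≤ 1000 * x)
    (h2 : 1000 * x ≤ xh) (h3 : (yl : ℝ) ≤ 1000 * y) (h4 : 1000 * y ≤ yh)
    (H : a * x + b * y + c * z ≤ h) : 1000 * z ≤ up h a b c xl xh yl yh := by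
  have a1 := min_le_mul a xl xh _ h1 h2
  have a2 := min_le_mul b yl yh _ h3 h4
  have a3 := Int.lt_ediv_add_one_mul_self
    (1000 * h - min (a * xl) (a * xh) - min (b * yl) (b * yh)) hc
  have a4 : ((1000 * h - min (a * xl) (a * xh) - min (b * yl) (b * yh) : ℤ) : ℝ) <
      ((up h a b c xl xh yl yh * c : ℤ) : ℝ) := by exact_mod_cast a3
  have hc' : (0 : ℝ) < c := by exact_mod_cast hc
  rw [Int.cast_sub, Int.cast_sub, Int.cast_mul, Int.cast_mul] at a4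
  have : c * (1000 * z) < c * (up h a b c xl xh yl yh : ℝ) := by
    push_cast at a4 a1 a2 ⊢
    linarith
  exact (lt_of_mul_lt_mul_left this hc'.le).le

lemma inn_sound (h a b c xl xh yl yh : ℤ) (hc : 0 < c) (x y z : ℝ) (h1 : (xl : ℝ) ≤ 1000 * x)
    (h2 : 1000 * x ≤ xh) (h3 : (yl : ℝ) ≤ 1000 * y) (h4 : 1000 * y ≤ yh)
    (H : 1000 * z ≤ inn h a b c xl xh yl yh) : a * x + b * y + c * z ≤ h := by
  have a1 := mul_le_max a xl xh _ h1 h2
  have a2 := mul_le_max b yl yh _ h3 h4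
  have a3 := Int.ediv_mul_le
    (1000 * h - max (a * xl) (a * xh) - max (b * yl) (b * yh)) hc.ne'
  have a4 : ((inn h a b c xl xh yl yh * c : ℤ) : ℝ) ≤
      ((1000 * h - max (a * xl) (a * xh) - max (b * yl) (b * yh) : ℤ) : ℝ) := by
    exact_mod_cast a3
  have hc' : (0 : ℝ) < c := by exact_mod_cast hc
  rw [Int.cast_sub, Int.cast_sub, Int.cast_mul, Int.cast_mul] at a4
  have a5 := mul_le_mul_of_nonneg_left H hc'.le
  push_cast at a4 a1 a2 ⊢
  linarith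

lemma sq_le_max (l u : ℤ) (t : ℝ) (h1 : (l : ℝ) ≤ t) (h2 : t ≤ u) :
    t ^ 2 ≤ ((max (l * l) (u * u) : ℤ) : ℝ) := by
  push_cast
  rcases le_total 0 t with h | h
  · exact le_max_of_le_right (by nlinarith)
  · exact le_max_of_le_left (by nlinarith)

/-- closed box with corners in units of `1/1000` -/
def box (xl xh yl yh zl zh : ℤ) : Set (Fin 3 → ℝ) :=
  Icc ![(xl : ℝ) / 1000, (yl : ℝ) / 1000, (zl : ℝ) / 1000]
    ![(xh : ℝ) / 1000, (yh : ℝ) / 1000, (zh : ℝ) / 1000]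

lemma mem_box {xl xh yl yh zl zh : ℤ} {v : Fin 3 → ℝ} : v ∈ box xl xh yl yh zl zh ↔
    ((xl : ℝ) ≤ 1000 * v 0 ∧ 1000 * v 0 ≤ xh) ∧ ((yl : ℝ) ≤ 1000 * v 1 ∧ 1000 * v 1 ≤ yh) ∧
      ((zl : ℝ) ≤ 1000 * v 2 ∧ 1000 * v 2 ≤ zh) := by
  simp only [box, mem_Icc, Pi.le_def, Fin.forall_fin_succ, Fin.succ_zero_eq_one,
    Fin.succ_one_eq_two, cons_val_zero, IsEmpty.forall_iff, and_true, cons_val_succ]
  constructor
  · rintro ⟨⟨a, b, c⟩, d, e, f⟩
    refine ⟨⟨?_, ?_⟩, ⟨?_, ?_⟩, ?_, ?_⟩ <;> linarith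
  · rintro ⟨⟨a, b⟩, ⟨c, d⟩, e, f⟩
    refine ⟨⟨?_, ?_, ?_⟩, ?_, ?_, ?_⟩ <;> linarith

/-- bound for the squared norm on a box, in units of `10^{-6}` -/
def sq3 (xl xh yl yh zl zh : ℤ) : ℤ :=
  max (xl * xl) (xh * xh) + max (yl * yl) (yh * yh) + max (zl * zl) (zh * zh)

/-- height times density bound -/
def wt (xl xh yl yh zl zh : ℤ) : ℤ :=
  if zl ≤ zh then (zh - zl) * (10 ^ 15 / (10 ^ 6 - sq3 xl xh yl yh zl zh) ^ 2 + 1) else 0

lemma hvol_box (xl xh yl yh zl zh : ℤ) (hx : xl ≤ xh) (hy : yl ≤ yh)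
    (hs : zl ≤ zh → sq3 xl xh yl yh zl zh < 10 ^ 6) :
    hvol (box xl xh yl yh zl zh) ≤
      ENNReal.ofReal (((xh - xl) * (yh - yl) * wt xl xh yl yh zl zh : ℤ) / 10 ^ 12) := by
  by_cases hz : zl ≤ zh
  · have hs' := hs hz
    set s := sq3 xl xh yl yh zl zh with hsd
    set u : ℤ := 10 ^ 15 / (10 ^ 6 - s) ^ 2 + 1 with hu
    have hpos : (0 : ℤ) < (10 ^ 6 - s) ^ 2 := pow_pos (by linarith) 2
    have h1 : (10 : ℤ) ^ 15 < u * (10 ^ 6 - s) ^ 2 := Int.lt_ediv_add_one_mul_self _ hpos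
    have h1' : (10 : ℝ) ^ 15 < u * (10 ^ 6 - s) ^ 2 := by exact_mod_cast h1
    have hs'' : (s : ℝ) < 10 ^ 6 := by exact_mod_cast hs'
    have hu0 : (0 : ℝ) < u := by
      by_contra hc
      push Not at hc
      nlinarith [sq_nonneg ((10 : ℝ) ^ 6 - s)]
    have hb : ∀ v ∈ box xl xh yl yh zl zh,
        ENNReal.ofReal (1 / (1 - v ⬝ᵥ v) ^ 2) ≤ ENNReal.ofReal ((u : ℝ) / 1000) := by
      intro v hv
      obtain ⟨⟨a, b⟩, ⟨c, d⟩, e, f⟩ := mem_box.mp hv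
      have b1 := sq_le_max _ _ _ a b
      have b2 := sq_le_max _ _ _ c d
      have b3 := sq_le_max _ _ _ e f
      have b4 : 10 ^ 6 * (v ⬝ᵥ v) ≤ s := by
        rw [hsd, sq3, Int.cast_add, Int.cast_add, dot3]; nlinarith
      apply ENNReal.ofReal_le_ofReal
      have b5 : 0 < 1 - v ⬝ᵥ v := by linarith
      rw [div_le_div_iff₀ (pow_pos b5 2) (by norm_num)]
      have b6 : ((10 : ℝ) ^ 6 - s) ^ 2 ≤ (10 ^ 6 * (1 - v ⬝ᵥ v)) ^ 2 :=
        pow_le_pow_left₀ (by linarith) (by linarith) 2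
      have b7 := mul_le_mul_of_nonneg_left b6 hu0.le
      nlinarith
    refine (setLIntegral_mono' measurableSet_Icc hb).trans ?_
    rw [setLIntegral_const, Real.volume_Icc_pi, Fin.prod_univ_three]
    have hx' : (xl : ℝ) ≤ xh := by exact_mod_cast hx
    have hy' : (yl : ℝ) ≤ yh := by exact_mod_cast hy
    have hz' : (zl : ℝ) ≤ zh := by exact_mod_cast hz
    simp only [cons_val_zero, cons_val_one, cons_val_two, tail_cons, head_cons]
    rw [← ENNReal.ofReal_mul (by linarith), ← ENNReal.ofReal_mul (by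
      apply mul_nonneg <;> linarith), ← ENNReal.ofReal_mul (by positivity)]
    apply ENNReal.ofReal_le_ofReal
    rw [wt, if_pos hz, ← hsd, ← hu]
    push_cast
    apply le_of_eq
    ring
  · have : box xl xh yl yh zl zh = ∅ := by
      refine eq_empty_of_forall_notMem fun v hv => hz ?_
      obtain ⟨-, -, e, f⟩ := mem_box.mp hv
      exact_mod_cast e.trans f
    rw [this]
    simp [hvol]

/-- half-open box -/
def obox (xl xh yl yh zl zh : ℤ) : Set (Fin 3 → ℝ) :=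
  univ.pi fun i => Ico (![(xl : ℝ) / 1000, (yl : ℝ) / 1000, (zl : ℝ) / 1000] i)
    (![(xh : ℝ) / 1000, (yh : ℝ) / 1000, (zh : ℝ) / 1000] i)

lemma mem_obox {xl xh yl yh zl zh : ℤ} {v : Fin 3 → ℝ} (hv : v ∈ obox xl xh yl yh zl zh) :
    ((xl : ℝ) ≤ 1000 * v 0 ∧ 1000 * v 0 < xh) ∧ ((yl : ℝ) ≤ 1000 * v 1 ∧ 1000 * v 1 < yh) ∧
      ((zl : ℝ) ≤ 1000 * v 2 ∧ 1000 * v 2 < zh) := by
  have h0 := hv 0 (mem_univ _)
  have h1 := hv 1 (mem_univ _)
  have h2 := hv 2 (mem_univ _)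
  simp only [mem_Ico, cons_val_zero, cons_val_one, cons_val_two, tail_cons, head_cons]
    at h0 h1 h2
  refine ⟨⟨?_, ?_⟩, ⟨?_, ?_⟩, ?_, ?_⟩ <;> linarith [h0.1, h0.2, h1.1, h1.2, h2.1, h2.2]

lemma volume_obox (xl xh yl yh zl zh : ℤ) (hx : xl ≤ xh) (hy : yl ≤ yh) :
    ENNReal.ofReal (((xh - xl) * (yh - yl) * max (zh - zl) 0 : ℤ) / 10 ^ 9) ≤
      volume (obox xl xh yl yh zl zh) := by
  rcases le_total zl zh with hz | hz
  · rw [obox, Real.volume_pi_Ico, Fin.prod_univ_three]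
    have hx' : (xl : ℝ) ≤ xh := by exact_mod_cast hx
    have hy' : (yl : ℝ) ≤ yh := by exact_mod_cast hy
    have hz' : (zl : ℝ) ≤ zh := by exact_mod_cast hz
    simp only [cons_val_zero, cons_val_one, cons_val_two, tail_cons, head_cons]
    rw [← ENNReal.ofReal_mul (by linarith), ← ENNReal.ofReal_mul (by
      apply mul_nonneg <;> linarith), max_eq_left (by linarith)]
    apply ENNReal.ofReal_le_ofReal
    push_cast
    apply le_of_eq
    ring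
  · rw [max_eq_right (by linarith)]
    simp

lemma volume_le_hvol {A : Set (Fin 3 → ℝ)} (hA : MeasurableSet A) (h : A ⊆ H3) :
    volume A ≤ hvol A := by
  rw [← setLIntegral_one]
  refine setLIntegral_mono' hA fun v hv => ?_
  have h1 : 0 < 1 - v ⬝ᵥ v := sub_pos.mpr (h hv)
  have h2 : 0 ≤ v ⬝ᵥ v := by rw [dot3]; nlinarith
  rw [← ENNReal.ofReal_one]
  apply ENNReal.ofReal_le_ofReal
  rw [le_div_iff₀ (pow_pos h1 2)]
  nlinarith

end Pool.Agent.H667Z.Hyp
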